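import Pool.Agent.Krd.Fin

/-!
# Codes with the Kerdock parameters which are unions of cosets of RM(1,n)

`RM r n` is the set of Boolean functions of algebraic degree at most `r` (see `Pool.Agent.Krd.RM`).
-/

set_option autoImplicit false

namespace Pool.Agent.Results.MP_7016dd_lc.KerdockCosets

open Pool.Agent.Krd

/-- `C` is a code of length `2 ^ (2 * m)` with the parameters of the Kerdock code (`2 ^ (4 * m)` words,
distances at least `2 ^ (2 * m - 1) - 2 ^ (m - 1)`) which is a union of cosets of `RM 1 (2 * m)`. -/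
structure KerdockUnion (m : ℕ) (C : Set ((Fin (2 * m) → ZMod 2) → ZMod 2)) : Prop where
  card : C.ncard = 2 ^ (4 * m)
  coset : ∀ f ∈ C, ∀ a ∈ RM 1 (2 * m), f + a ∈ C
  dist : ∀ f ∈ C, ∀ g ∈ C, f ≠ g → 2 ^ (2 * m - 1) - 2 ^ (m - 1) ≤ hammingDist f g

/-- The derivatives `x ↦ F x + F (x + w)` of `F` in all directions `w ∈ W` are affine. -/
def AffineAlong {n : ℕ} (F : (Fin n → ZMod 2) → ZMod 2) (W : Submodule (ZMod 2) (Fin n → ZMod 2)) :
    Prop :=
  ∀ w ∈ W, (fun x => F x + F (x + w)) ∈ RM 1 n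

/-- Let `m ≥ 2`, `n = 2 * m` and let `C` be a code of length `2 ^ n` with the parameters of the Kerdock
code which is a union of cosets of `RM 1 n`. Suppose one of
(i) for all `f, g ∈ C` the function `f + g` has affine derivatives in all directions of a space of
  codimension at most three (depending on `f, g`);
(ii) the same with codimension at most four and one space for all `f, g ∈ C`.
Then some translate of `C` is contained in `RM 2 n`. -/
theorem result {m : ℕ} (hm : 2 ≤ m) (C : Set ((Fin (2 * m) → ZMod 2) → ZMod 2))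
    (hC : KerdockUnion m C)
    (h : (∀ f ∈ C, ∀ g ∈ C, ∃ W : Submodule (ZMod 2) (Fin (2 * m) → ZMod 2),
        2 * m ≤ Module.finrank (ZMod 2) W + 3 ∧ AffineAlong (f + g) W) ∨
      ∃ W : Submodule (ZMod 2) (Fin (2 * m) → ZMod 2),
        2 * m ≤ Module.finrank (ZMod 2) W + 4 ∧ ∀ f ∈ C, ∀ g ∈ C, AffineAlong (f + g) W) :
    ∃ v, ∀ f ∈ C, f + v ∈ RM 2 (2 * m) := by
  rcases h with h | ⟨W, hW, h⟩
  · exact main hm C hC.card hC.coset hC.dist (Or.inl fun f hf g hg => h f hf g hg)
  · exact main hm C hC.card hC.coset hC.dist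
      (Or.inr ⟨W, hW, fun f hf g hg w hw => h f hf g hg w hw⟩)

end Pool.Agent.Results.MP_7016dd_lc.KerdockCosets
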