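import Pool.Agent.KrdIso.Code

/-!
# The quadratic Kerdock codes are isolated

`RM r n` is the set of Boolean functions of algebraic degree at most `r` (see `Pool.Agent.Krd.RM`).
-/

set_option autoImplicit false

namespace Pool.Agent.Results.MP_7016dd_lc.KerdockIsolated

open Pool.Agent.Krd

/-- `C` is a self-complementary code of length `2 ^ (2 * m)` with the parameters of the Kerdock code:
`2 ^ (4 * m)` words, distances at least `2 ^ (2 * m - 1) - 2 ^ (m - 1)`, and `f + 1 ∈ C` for `f ∈ C`. -/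
structure KerdockCode (m : ℕ) (C : Set ((Fin (2 * m) → ZMod 2) → ZMod 2)) : Prop where
  card : C.ncard = 2 ^ (4 * m)
  compl : ∀ f ∈ C, (fun x => f x + 1) ∈ C
  dist : ∀ f ∈ C, ∀ g ∈ C, f ≠ g → 2 ^ (2 * m - 1) - 2 ^ (m - 1) ≤ hammingDist f g

/-- Let `m ≥ 2`, `n = 2 * m`, let `C` be a self-complementary code of length `2 ^ n` with the parameters
of the Kerdock code and let `q` be a Boolean function. Suppose that all words `f` of `C` with at most
`(2 ^ m + 1) * 2 ^ (n + 1)` exceptions (this is the size of `2 ^ m + 1` cosets of `RM 1 n`) have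
`f + q ∈ RM 2 n` and `f + RM 1 n ⊆ C`. Then `f + q ∈ RM 2 n` for all `f ∈ C`. -/
theorem result {m : ℕ} (hm : 2 ≤ m) (C : Set ((Fin (2 * m) → ZMod 2) → ZMod 2))
    (hC : KerdockCode m C) (q : (Fin (2 * m) → ZMod 2) → ZMod 2)
    (h : {f ∈ C | ¬ (f + q ∈ RM 2 (2 * m) ∧ ∀ a ∈ RM 1 (2 * m), f + a ∈ C)}.ncard ≤
      (2 ^ m + 1) * 2 ^ (2 * m + 1)) :
    ∀ f ∈ C, f + q ∈ RM 2 (2 * m) :=
  Pool.Agent.KrdIso.main hm C hC.card hC.compl hC.dist q h

end Pool.Agent.Results.MP_7016dd_lc.KerdockIsolated
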