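import Pool.Agent.Krd.Red
import Pool.Agent.Krd.Flat
import Pool.Agent.Krd.Rob
import Pool.Agent.Krd.SubF

/-!
# Codes with the Kerdock parameters: changes on few coordinates

`RM r n` is the set of Boolean functions of algebraic degree at most `r` (see `Pool.Agent.Krd.RM`).
-/

set_option autoImplicit false

namespace Pool.Agent.Results.MP_7016dd_lc.KerdockSmallSet

open Pool.Agent.Krd

/-- `C` is a code of length `2 ^ (2 * m)` with the parameters of the Kerdock code (`2 ^ (4 * m)` words,
distances at least `2 ^ (2 * m - 1) - 2 ^ (m - 1)`) which is a union of cosets of `RM 1 (2 * m)`. -/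
structure KerdockUnion (m : ℕ) (C : Set ((Fin (2 * m) → ZMod 2) → ZMod 2)) : Prop where
  card : C.ncard = 2 ^ (4 * m)
  coset : ∀ f ∈ C, ∀ a ∈ RM 1 (2 * m), f + a ∈ C
  dist : ∀ f ∈ C, ∀ g ∈ C, f ≠ g → 2 ^ (2 * m - 1) - 2 ^ (m - 1) ≤ hammingDist f g

/-- `E` has less than `2 ^ n / 4` points or lies in a flat `c + W` of codimension two. -/
def SmallSet {n : ℕ} (E : Set (Fin n → ZMod 2)) : Prop :=
  4 * E.ncard < 2 ^ n ∨
    ∃ (W : Submodule (ZMod 2) (Fin n → ZMod 2)) (c : Fin n → ZMod 2),
      Module.finrank (ZMod 2) W + 2 = n ∧ ∀ x ∈ E, x + c ∈ W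

/-- Let `m ≥ 2`, `n = 2 * m` and let `C` be a code of length `2 ^ n` with the parameters of the Kerdock
code which is a union of cosets of `RM 1 n`. Suppose that there is a set `E` with less than `2 ^ n / 4`
points, or a subset of a flat of codimension two, such that every `f + g` (`f, g ∈ C`) agrees outside `E`
with a function from `RM 2 n`. Then some translate of `C` is contained in `RM 2 n`. -/
theorem result {m : ℕ} (hm : 2 ≤ m) (C : Set ((Fin (2 * m) → ZMod 2) → ZMod 2))
    (hC : KerdockUnion m C) (E : Set (Fin (2 * m) → ZMod 2)) (hE : SmallSet E)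
    (h : ∀ f ∈ C, ∀ g ∈ C, ∃ q ∈ RM 2 (2 * m), ∀ x, x ∉ E → f x + g x = q x) :
    ∃ v, ∀ f ∈ C, f + v ∈ RM 2 (2 * m) := by
  classical
  obtain ⟨I, _, g, hI, hgC, hb, hfam⟩ := exists_family (by omega) C hC.card hC.coset hC.dist
  have hV : Module.finrank (ZMod 2) (Fin (2 * m) → ZMod 2) = 2 * m := by simp
  have hne : Nonempty I := by
    rw [← Fintype.card_pos_iff, hI]
    positivity
  obtain ⟨o⟩ := hne
  choose q hq hqe using fun i => h (g i) (hgC i) (g o) (hgC o)
  have hq2 : ∀ i, Quad (q i) := fun i => mem_RM_two.1 (hq i)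
  have key : ∀ i j, Quad (g i + g j) := by
    rcases hE with hE | ⟨W, c, hW, hc⟩
    · have hEc : 4 * (Set.toFinite E).toFinset.card < Fintype.card (Fin (2 * m) → ZMod 2) := by
        rw [← Set.ncard_eq_toFinset_card E (Set.toFinite E), Fintype.card_fun, ZMod.card,
          Fintype.card_fin]
        exact hE
      refine quad_of_small (by omega) hV hI g hb o (Set.toFinite E).toFinset hEc q hq2 ?_
      intro i x hx
      rw [Set.Finite.mem_toFinset] at hx
      exact hqe i x hx
    · obtain ⟨x1, x2, n1, n2, n3, hx⟩ := exists_functionals W (by rw [hV, hW])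
      refine quad_of_isF (by omega) hV hI g hb (o := o) (x1 := x1) (x2 := x2) (e1 := x1 c)
        (e2 := x2 c) (q := q) ⟨n1, n2, n3, hq2, ?_⟩
      intro i x hxc
      refine hqe i x fun hxE => hxc ?_
      obtain ⟨h1, h2⟩ := (hx _).1 (hc x hxE)
      rw [map_add] at h1 h2
      constructor
      · linear_combination h1 - z2_add_self (x1 c)
      · linear_combination h2 - z2_add_self (x2 c)
  refine ⟨g o, fun f hf => mem_RM_two.2 ?_⟩
  obtain ⟨i, hi⟩ := hfam f hf
  have h1 : f + g o = (f + g i) + (g i + g o) := by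
    rw [add_assoc, ← add_assoc (g i), fun_add_self, zero_add]
  rw [h1]
  exact hi.quad.add (key i o)

end Pool.Agent.Results.MP_7016dd_lc.KerdockSmallSet
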