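import Pool.Agent.KrdSw.Code

/-!
# The Kerdock code admits no switching into one further class

`RM r n` is the set of Boolean functions of algebraic degree at most `r` (see `Pool.Agent.Krd.RM`).
-/

set_option autoImplicit false

namespace Pool.Agent.Results.MP_7016dd_lc.KerdockSwitching

open Pool.Agent.Krd

/-- `C` is a self-complementary code of length `2 ^ (2 * m)` with the parameters of the Kerdock code:
`2 ^ (4 * m)` words, distances at least `2 ^ (2 * m - 1) - 2 ^ (m - 1)`, and `f + 1 ∈ C` for `f ∈ C`. -/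
structure KerdockCode (m : ℕ) (C : Set ((Fin (2 * m) → ZMod 2) → ZMod 2)) : Prop where
  card : C.ncard = 2 ^ (4 * m)
  compl : ∀ f ∈ C, (fun x => f x + 1) ∈ C
  dist : ∀ f ∈ C, ∀ g ∈ C, f ≠ g → 2 ^ (2 * m - 1) - 2 ^ (m - 1) ≤ hammingDist f g

/-- The function `f_u` of the problem on `F × F_2`, for `u` in the field `F` with `2 ^ (2 * m - 1)`
elements: `f_u (x, t) = ∑_{i=1}^{m-1} Tr ((u x) ^ (2 ^ i + 1)) + t * Tr (u x)`. -/
noncomputable def kerdockFun {F : Type*} [Field F] [Algebra (ZMod 2) F] (m : ℕ) (u : F)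
    (z : F × ZMod 2) : ZMod 2 :=
  ∑ i ∈ Finset.Icc 1 (m - 1), Algebra.trace (ZMod 2) F ((u * z.1) ^ (2 ^ i + 1)) +
    z.2 * Algebra.trace (ZMod 2) F (u * z.1)

/-- The Kerdock code of length `2 ^ (2 * m)`, written with the coordinates `e` on `F × F_2`: the union
of the cosets `f_u + RM 1 (2 * m)`, `u ∈ F`. -/
def kerdock {F : Type*} [Field F] [Algebra (ZMod 2) F] (m : ℕ)
    (e : (Fin (2 * m) → ZMod 2) ≃ₗ[ZMod 2] F × ZMod 2) :
    Set ((Fin (2 * m) → ZMod 2) → ZMod 2) :=
  {f | ∃ u : F, ∃ a ∈ RM 1 (2 * m), f = (fun x => kerdockFun m u (e x)) + a}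

/-- Let `m ≥ 2`, `n = 2 * m`, let `C` be a self-complementary code of length `2 ^ n` with the parameters
of the Kerdock code and let `q`, `h` be Boolean functions. Suppose that every word of `C` lies in
`q + kerdock m e` or in `h + RM 2 n`, and that `f + RM 1 n ⊆ C` for the words `f` of the first kind (this
holds if `C` is a union of cosets of `RM 1 n`). Then `C = q + kerdock m e` or `C ⊆ h + RM 2 n`. -/
theorem result {m : ℕ} (hm : 2 ≤ m) {F : Type*} [Field F] [Finite F] [Algebra (ZMod 2) F]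
    (e : (Fin (2 * m) → ZMod 2) ≃ₗ[ZMod 2] F × ZMod 2)
    (C : Set ((Fin (2 * m) → ZMod 2) → ZMod 2)) (hC : KerdockCode m C)
    (q h : (Fin (2 * m) → ZMod 2) → ZMod 2)
    (hU : ∀ f ∈ C, f + q ∈ kerdock m e → ∀ a ∈ RM 1 (2 * m), f + a ∈ C)
    (hh : ∀ f ∈ C, f + q ∈ kerdock m e ∨ f + h ∈ RM 2 (2 * m)) :
    (∀ f, f ∈ C ↔ f + q ∈ kerdock m e) ∨ ∀ f ∈ C, f + h ∈ RM 2 (2 * m) := by
  refine Pool.Agent.KrdSw.main hm e C hC.card hC.compl hC.dist q h (kerdock m e) ?_ hU hh
  intro f
  constructor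
  · rintro ⟨u, a, ha, rfl⟩
    refine ⟨u, ?_⟩
    have h1 : (fun x => kerdockFun m u (e x)) + a + (fun x => Pool.Agent.KrdSw.kf m u (e x)) = a := by
      funext x
      have := z2_add_self (kerdockFun m u (e x))
      change kerdockFun m u (e x) + a x + kerdockFun m u (e x) = a x
      linear_combination this
    rw [h1]
    exact ha
  · rintro ⟨u, hu⟩
    refine ⟨u, _, hu, ?_⟩
    funext x
    have := z2_add_self (kerdockFun m u (e x))
    change f x = kerdockFun m u (e x) + (f x + kerdockFun m u (e x))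
    linear_combination -this

end Pool.Agent.Results.MP_7016dd_lc.KerdockSwitching
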